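import Pool.Agent.Y166.CS.Stm

set_option autoImplicit false

namespace Pool.Agent.Y780.CS

open Polynomial

theorem done : Pool.Agent.Y166.CS.S_DVD := by
  intro f g α β hf hg hβα h1 h2
  have hdeg : β.natDegree * α.natDegree = 1 := by
    rw [← natDegree_comp, hβα, natDegree_X]
  have hβ1 : β.natDegree = 1 := (mul_eq_one.mp hdeg).1
  have hα1 : α.natDegree = 1 := (mul_eq_one.mp hdeg).2
  obtain ⟨a, b, hα⟩ := exists_eq_X_add_C_of_natDegree_le_one hα1.le
  obtain ⟨a', b', hβ⟩ := exists_eq_X_add_C_of_natDegree_le_one hβ1.le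
  have hev : ∀ t : ℂ, a' * (a * t + b) + b' = t := by
    intro t
    have h := congrArg (Polynomial.eval t) hβα
    rw [eval_comp, hα, hβ] at h
    simpa using h
  have e0 := hev 0
  have e1 := hev 1
  have haa : a' * a = 1 := by linear_combination e1 - e0
  have hbb : a' * b + b' = 0 := by linear_combination e0
  have ha : a ≠ 0 := right_ne_zero_of_mul_eq_one haa
  have ha' : a' ≠ 0 := left_ne_zero_of_mul_eq_one haa
  have hαβ : α.comp β = X := by
    rw [hα, hβ]
    simp only [add_comp, mul_comp, C_comp, X_comp]
    have h3 : a * b' + b = 0 := by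
      linear_combination a * hbb - b * haa
    calc C a * (C a' * X + C b') + C b = C (a' * a) * X + C (a * b' + b) := by
          simp only [map_mul, map_add]; ring
      _ = X := by rw [haa, h3]; simp
  have hh : Squarefree (f.comp β) := by
    intro r hr
    have h4 : r.comp α * r.comp α ∣ f := by
      obtain ⟨s, hs⟩ := hr
      refine ⟨s.comp α, ?_⟩
      have h5 := congrArg (fun p : ℂ[X] => p.comp α) hs
      simp only [comp_assoc, hβα, comp_X, mul_comp] at h5
      exact h5
    have h6 := hf _ h4
    have h7 : IsUnit ((r.comp α).comp β) := h6.map (compRingHom β)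
    rwa [comp_assoc, hαβ, comp_X] at h7
  have hg0 : g ≠ 0 := hg.ne_zero
  have hh0 : f.comp β ≠ 0 := hh.ne_zero
  have hroots : g.roots = (f.comp β).roots := by
    refine (Multiset.Nodup.ext ?_ ?_).mpr ?_
    · exact nodup_roots (PerfectField.separable_iff_squarefree.mpr hg)
    · exact nodup_roots (PerfectField.separable_iff_squarefree.mpr hh)
    · intro c
      rw [mem_roots hg0, mem_roots hh0, IsRoot.def, IsRoot.def, eval_comp]
      constructor
      · exact h2 c
      · intro h
        have := h1 _ h
        rwa [← eval_comp (p := α), hαβ, eval_X] at this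
  refine ⟨⟨a, b, ha, hα⟩, a', b', g.leadingCoeff / (f.comp β).leadingCoeff, ha', ?_, ?_⟩
  · exact div_ne_zero (leadingCoeff_ne_zero.mpr hg0) (leadingCoeff_ne_zero.mpr hh0)
  · rw [← hβ]
    have e3 := (IsAlgClosed.splits g).eq_prod_roots
    have e4 := (IsAlgClosed.splits (f.comp β)).eq_prod_roots
    have e5 : C (g.leadingCoeff / (f.comp β).leadingCoeff) * C ((f.comp β).leadingCoeff) =
        (C g.leadingCoeff : ℂ[X]) := by
      rw [← map_mul, div_mul_cancel₀ _ (leadingCoeff_ne_zero.mpr hh0)]
    calc g = C g.leadingCoeff * (g.roots.map (fun x => X - C x)).prod := e3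
      _ = C (g.leadingCoeff / (f.comp β).leadingCoeff) * (C ((f.comp β).leadingCoeff) *
          ((f.comp β).roots.map (fun x => X - C x)).prod) := by
            rw [← mul_assoc, e5, hroots]
      _ = C (g.leadingCoeff / (f.comp β).leadingCoeff) * f.comp β := by rw [← e4]

end Pool.Agent.Y780.CS
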